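import Mathlib

/-!
# Irregular graphs with respect to stars and cliques (MP_5484c7_co): definitions and statements
-/

set_option autoImplicit false

open Finset

namespace Pool.Agent.K4H49.IR

/-- The `F`-degree of the vertex `x` of `G`: the number of the subgraphs of `G` (not necessarily
induced) which are isomorphic to `F` and contain `x`. -/
noncomputable def fdeg {V W : Type} (F : SimpleGraph W) (G : SimpleGraph V) (x : V) : ℕ :=
  {H : G.Subgraph | x ∈ H.verts ∧ Nonempty (F ≃g H.coe)}.ncard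

/-- the star `K_{1,n}` -/
abbrev star (n : ℕ) : SimpleGraph (Fin 1 ⊕ Fin n) := completeBipartiteGraph (Fin 1) (Fin n)

/-- the number of the stars with `n` leaves which contain `x` -/
def sn {V : Type} [Fintype V] [DecidableEq V] (G : SimpleGraph V) [DecidableRel G.Adj] (n : ℕ)
    (x : V) : ℕ :=
  (G.degree x).choose n + ∑ y ∈ G.neighborFinset x, (G.degree y - 1).choose (n - 1)

/-- [STAR] -/
def StStar : Prop := ∀ {V : Type} [Fintype V] [DecidableEq V] (G : SimpleGraph V)
    [DecidableRel G.Adj] (n : ℕ), 2 ≤ n → ∀ x : V, fdeg (star n) G x = sn G n x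

/-- the graph of Q1, on `0, 1, ..., 2m`: `i, j` are adjacent if `i + j > 2 m`; the vertex `0` is
pendant at `m + 1` -/
def A (m : ℕ) : SimpleGraph (Fin (2 * m + 1)) where
  Adj i j := i ≠ j ∧ (2 * m < i.1 + j.1 ∨ (i.1 = 0 ∧ j.1 = m + 1) ∨ (j.1 = 0 ∧ i.1 = m + 1))
  symm := ⟨fun i j h => ⟨h.1.symm, by rcases h.2 with h | h | h <;> omega⟩⟩
  loopless := ⟨fun i h => h.1 rfl⟩

instance (m : ℕ) : DecidableRel (A m).Adj := fun i j => by unfold A; infer_instance

/-- [MONO] -/
def StMono : Prop := ∀ n m : ℕ, 2 ≤ n → n + 1 ≤ m → StrictMono (sn (A m) n)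

/-- the split graph: a clique `Fin M`, an independent set `Fin q`, the neighbours of `l` are `N l` -/
def split {M q : ℕ} (N : Fin q → Finset (Fin M)) : SimpleGraph (Fin M ⊕ Fin q) where
  Adj x y := match x, y with
    | .inl a, .inl b => a ≠ b
    | .inl a, .inr l => a ∈ N l
    | .inr l, .inl a => a ∈ N l
    | .inr _, .inr _ => False
  symm := ⟨fun x y h => by
    rcases x with a | l <;> rcases y with b | k
    · exact fun e => h e.symm
    · exact h
    · exact h
    · exact h⟩
  loopless := ⟨fun x h => by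
    rcases x with a | l
    · exact h rfl
    · exact h⟩

/-- [CLQ] -/
def StClq : Prop := ∀ {V : Type} [Fintype V] (G : SimpleGraph V) (n : ℕ) (x : V),
    fdeg (⊤ : SimpleGraph (Fin n)) G x = {s : Finset V | G.IsNClique n s ∧ x ∈ s}.ncard

/-- [SPL1]: cliques through an independent vertex -/
def StSpl1 : Prop := ∀ {M q : ℕ} (N : Fin q → Finset (Fin M)) (n : ℕ), 2 ≤ n → ∀ l : Fin q,
    {s : Finset (Fin M ⊕ Fin q) | (split N).IsNClique n s ∧ Sum.inr l ∈ s}.ncard =
      (N l).card.choose (n - 1)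

/-- [SPL2]: cliques through a vertex of the big clique -/
def StSpl2 : Prop := ∀ {M q : ℕ} (N : Fin q → Finset (Fin M)) (n : ℕ), 2 ≤ n → ∀ h : Fin M,
    {s : Finset (Fin M ⊕ Fin q) | (split N).IsNClique n s ∧ Sum.inl h ∈ s}.ncard =
      (M - 1).choose (n - 1) + ∑ l with h ∈ N l, ((N l).card - 1).choose (n - 2)

/-- the vertex `h < M` of the big clique is adjacent to the independent vertex of degree `d` -/
def inN (n M h d : ℕ) : Prop :=
  if h + 3 ≤ n then d + 1 = n ∨ n + h < d
  else if M + 2 ≤ h + n then h < d ∨ (n ≤ d ∧ d + h + 1 ≤ n + M)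
  else h < d

instance (n M h d : ℕ) : Decidable (inN n M h d) := by unfold inN; infer_instance

/-- the neighbours of the independent vertex `l` (of degree `l + n - 1`) -/
def Nf (n M : ℕ) (l : Fin (M + 2 - n)) : Finset (Fin M) :=
  univ.filter fun h => inN n M h.1 (l.1 + n - 1)

/-- [CARD] -/
def StCard : Prop := ∀ n M : ℕ, 3 ≤ n → 3 * n ≤ M → ∀ l : Fin (M + 2 - n),
    (Nf n M l).card = l.1 + n - 1

/-- the defect of `h`: the total weight of the independent vertices not adjacent to `h` -/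
def defect (n M h : ℕ) : ℕ :=
  if h + 3 ≤ n then (n + h).choose (n - 1) - 1
  else if M + 2 ≤ h + n then h.choose (n - 1) + 1 - (n + (M - 1 - h)).choose (n - 1)
  else h.choose (n - 1)

/-- [SUM] (by the hockey-stick identity) -/
def StSum : Prop := ∀ n M : ℕ, 3 ≤ n → 3 * n ≤ M → ∀ h : Fin M,
    (∑ l : Fin (M + 2 - n) with h ∈ Nf n M l, (l.1 + n - 2).choose (n - 2)) + defect n M h.1 =
      M.choose (n - 1)

/-- [INJ] -/
def StInj : Prop := ∀ n M : ℕ, 3 ≤ n → 3 * n ≤ M →
    (∀ h < M, defect n M h < (M - 1).choose (n - 1)) ∧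
    ∀ h < M, ∀ h' < M, defect n M h = defect n M h' → h = h'

end Pool.Agent.K4H49.IR
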