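import Pool.Agent.K4H49.IR.Spec

/-!
# The sizes of the neighbourhoods of the independent vertices (piece CARD)
-/

set_option autoImplicit false

open Finset

namespace Pool.Agent.K4H49.IR

theorem card_Nf_key (p : ℕ → Prop) [DecidablePred p] (M a b1 b2 c1 c2 : ℕ)
    (h : ∀ x, (x < M ∧ p x) ↔ (x < a ∨ (b1 ≤ x ∧ x < b2) ∨ (c1 ≤ x ∧ x < c2)))
    (h1 : a ≤ b1) (h2 : b1 ≤ b2) (h3 : b2 ≤ c1) :
    ((range M).filter p).card = a + ((b2 - b1) + (c2 - c1)) := by
  have e : (range M).filter p = range a ∪ (Ico b1 b2 ∪ Ico c1 c2) := by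
    ext x
    rw [mem_filter, mem_range, h x, mem_union, mem_union, mem_range, mem_Ico, mem_Ico]
  rw [e, card_union_of_disjoint, card_union_of_disjoint, card_range, Nat.card_Ico, Nat.card_Ico]
  · rw [disjoint_left]
    intro x hx hy
    rw [mem_Ico] at hx hy
    omega
  · rw [disjoint_left]
    intro x hx hy
    rw [mem_range] at hx
    rw [mem_union, mem_Ico, mem_Ico] at hy
    omega

theorem card_Nf : StCard := by
  intro n M hn hM l
  have hl := l.2
  obtain ⟨d, hd⟩ : ∃ d, d = l.1 + n - 1 := ⟨_, rfl⟩
  have h1 : (Nf n M l).card = ((range M).filter fun h => inN n M h d).card := by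
    unfold Nf
    rw [← hd, card_filter, card_filter]
    exact Fin.sum_univ_eq_sum_range (fun h => if inN n M h d then 1 else 0) M
  rw [h1, ← hd]
  have hd1 : n ≤ d + 1 := by omega
  have hd2 : d ≤ M := by omega
  rcases Nat.eq_or_lt_of_le hd1 with h0 | h0
  · -- `d = n - 1`
    rw [card_Nf_key _ M (n - 2) (n - 2) (n - 1) (M + 2 - n) (M + 2 - n) ?_ (by omega) (by omega)
      (by omega)]
    · omega
    · intro x
      unfold inN
      split_ifs <;> omega
  · rcases le_total d (M + 2 - n) with h2 | h2
    · rcases le_total d (2 * n - 2) with h3 | h3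
      · rw [card_Nf_key _ M (d - n) (n - 2) d (M + 2 - n) (n + M - d) ?_ (by omega) (by omega)
          (by omega)]
        · omega
        · intro x
          unfold inN
          split_ifs <;> omega
      · rw [card_Nf_key _ M (n - 2) (n - 2) d (M + 2 - n) (M + 2 - n) ?_ (by omega) (by omega)
          (by omega)]
        · omega
        · intro x
          unfold inN
          split_ifs <;> omega
    · rw [card_Nf_key _ M (n - 2) (n - 2) (M + 2 - n) (M + 2 - n) d ?_ (by omega) (by omega)
        (by omega)]
      · omega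
      · intro x
        unfold inN
        split_ifs <;> omega

end Pool.Agent.K4H49.IR
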