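import Pool.Agent.K4H49.IR.Spec

/-!
# Irregular graphs: the defects are different (piece INJ)
-/

set_option autoImplicit false

open Finset

namespace Pool.Agent.K4H49.IR

namespace InjAux

theorem lt_of_lt (k a b : ℕ) (hab : a < b) (hb : k ≤ b) (hk : 1 ≤ k) : a.choose k < b.choose k := by
  obtain ⟨b', rfl⟩ : ∃ b', b = b' + 1 := ⟨b - 1, by omega⟩
  obtain ⟨k', rfl⟩ : ∃ k', k = k' + 1 := ⟨k - 1, by omega⟩
  have h3 : (b' + 1).choose (k' + 1) = b'.choose k' + b'.choose (k' + 1) := Nat.choose_succ_succ _ _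
  have h1 : a.choose (k' + 1) ≤ b'.choose (k' + 1) := Nat.choose_le_choose _ (by omega)
  have h2 : 0 < b'.choose k' := Nat.choose_pos (by omega)
  omega

theorem small_gap (n M h : ℕ) (hh : h + 3 ≤ n) :
    (n + h - 1).choose (n - 1) < defect n M h ∧ defect n M h < (n + h).choose (n - 1) := by
  obtain ⟨m, rfl⟩ : ∃ m, n = m + 3 := ⟨n - 3, by omega⟩
  have e : defect (m + 3) M h = (m + 3 + h).choose (m + 2) - 1 := by
    unfold defect
    rw [if_pos hh]
    rfl
  rw [e, show m + 3 - 1 = m + 2 by omega, show m + 3 + h - 1 = m + 2 + h by omega]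
  have h1 : (m + 3 + h).choose (m + 2) = (m + 2 + h).choose (m + 1) + (m + 2 + h).choose (m + 2) := by
    rw [show m + 3 + h = (m + 2 + h) + 1 by omega, Nat.choose_succ_succ]
  have h2 : (m + 2).choose (m + 1) ≤ (m + 2 + h).choose (m + 1) := Nat.choose_le_choose _ (by omega)
  have h3 : (m + 2).choose (m + 1) = m + 2 := by
    rw [Nat.choose_succ_self_right]
  omega

theorem far_gap (n M h : ℕ) (hn : 3 ≤ n) (hM : 3 * n ≤ M) (hh : M + 2 ≤ h + n) (hlt : h < M) :
    (h - 1).choose (n - 1) < defect n M h ∧ defect n M h < h.choose (n - 1) := by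
  obtain ⟨m, rfl⟩ : ∃ m, n = m + 3 := ⟨n - 3, by omega⟩
  have e : defect (m + 3) M h = h.choose (m + 2) + 1 - (m + 3 + (M - 1 - h)).choose (m + 2) := by
    unfold defect
    rw [if_neg (by omega), if_pos hh]
    rfl
  rw [e, show m + 3 - 1 = m + 2 by omega]
  obtain ⟨h', rfl⟩ : ∃ h', h = h' + 1 := ⟨h - 1, by omega⟩
  rw [show h' + 1 - 1 = h' by omega]
  have h1 : (h' + 1).choose (m + 2) = h'.choose (m + 1) + h'.choose (m + 2) := Nat.choose_succ_succ _ _
  have h2 : (2 * m + 3).choose (m + 1) ≤ h'.choose (m + 1) := Nat.choose_le_choose _ (by omega)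
  have h3 : (2 * m + 3).choose (m + 1) = (2 * m + 3).choose (m + 2) :=
    Nat.choose_symm_of_eq_add (by omega)
  have h4 : (m + 3 + (M - 1 - (h' + 1))).choose (m + 2) ≤ (2 * m + 3).choose (m + 2) :=
    Nat.choose_le_choose _ (by omega)
  have h5 : (m + 3).choose (m + 2) ≤ (m + 3 + (M - 1 - (h' + 1))).choose (m + 2) :=
    Nat.choose_le_choose _ (by omega)
  have h6 : (m + 3).choose (m + 2) = m + 3 := by
    rw [Nat.choose_succ_self_right]
  omega

theorem gap_unique (k j j' v : ℕ) (h1 : (j - 1).choose k < v) (h2 : v < j.choose k)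
    (h1' : (j' - 1).choose k < v) (h2' : v < j'.choose k) : j = j' := by
  rcases lt_trichotomy j j' with h | h | h
  · have : j.choose k ≤ (j' - 1).choose k := Nat.choose_le_choose _ (by omega)
    omega
  · exact h
  · have : j'.choose k ≤ (j - 1).choose k := Nat.choose_le_choose _ (by omega)
    omega

theorem gap_ne (k j v h : ℕ) (h1 : (j - 1).choose k < v) (h2 : v < j.choose k) :
    v ≠ h.choose k := by
  intro e
  by_cases hj : h ≤ j - 1
  · have : h.choose k ≤ (j - 1).choose k := Nat.choose_le_choose _ hj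
    omega
  · have : j.choose k ≤ h.choose k := Nat.choose_le_choose _ (by omega)
    omega

theorem key (n M : ℕ) (hn : 3 ≤ n) (hM : 3 * n ≤ M) (h : ℕ) (hh : h < M) :
    (defect n M h = h.choose (n - 1) ∧ n ≤ h + 2 ∧ h + n ≤ M + 1) ∨
    ∃ j, (j - 1).choose (n - 1) < defect n M h ∧ defect n M h < j.choose (n - 1) ∧ j + 1 ≤ M ∧
      ((j = n + h ∧ h + 3 ≤ n) ∨ (j = h ∧ M + 2 ≤ h + n)) := by
  by_cases h1 : h + 3 ≤ n
  · obtain ⟨a, b⟩ := small_gap n M h h1
    exact Or.inr ⟨n + h, a, b, by omega, Or.inl ⟨rfl, h1⟩⟩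
  · by_cases h2 : M + 2 ≤ h + n
    · obtain ⟨a, b⟩ := far_gap n M h hn hM h2 hh
      exact Or.inr ⟨h, a, b, by omega, Or.inr ⟨rfl, h2⟩⟩
    · refine Or.inl ⟨?_, by omega, by omega⟩
      unfold defect
      rw [if_neg h1, if_neg h2]

end InjAux

open InjAux in
theorem inj : StInj := by
  intro n M hn hM
  refine ⟨fun h hh => ?_, fun h hh h' hh' e => ?_⟩
  · rcases key n M hn hM h hh with ⟨a, b, c⟩ | ⟨j, a, b, c, d⟩
    · rw [a]
      exact lt_of_lt _ _ _ (by omega) (by omega) (by omega)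
    · exact b.trans_le (Nat.choose_le_choose _ (by omega))
  · rcases key n M hn hM h hh with ⟨a, b, c⟩ | ⟨j, a, b, c, d⟩ <;>
      rcases key n M hn hM h' hh' with ⟨a', b', c'⟩ | ⟨j', a', b', c', d'⟩
    · rcases lt_trichotomy h h' with g | g | g
      · have := lt_of_lt (n - 1) h h' g (by omega) (by omega)
        omega
      · exact g
      · have := lt_of_lt (n - 1) h' h g (by omega) (by omega)
        omega
    · exact absurd (e.symm.trans a) (gap_ne _ _ _ _ a' b')
    · exact absurd (e.trans a') (gap_ne _ _ _ _ a b)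
    · rw [← e] at a' b'
      have := gap_unique _ _ _ _ a b a' b'
      omega

end Pool.Agent.K4H49.IR
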