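import Pool.Agent.K4H49.IR.Spec

/-!
# [SPL1]: the cliques of the split graph through an independent vertex
-/

set_option autoImplicit false

open Finset

namespace Pool.Agent.K4H49.IR

/-- [SPL1] -/
theorem spl1 : StSpl1 := by
  intro M q N n hn l
  classical
  have hnot : ∀ t : Finset (Fin M), (Sum.inr l : Fin M ⊕ Fin q) ∉ t.map Function.Embedding.inl := by
    intro t h
    obtain ⟨a, _, ha⟩ := Finset.mem_map.1 h
    simp at ha
  have key : {s : Finset (Fin M ⊕ Fin q) | (split N).IsNClique n s ∧ Sum.inr l ∈ s} =
      (((((N l).powersetCard (n - 1)).image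
        (fun t : Finset (Fin M) => insert (Sum.inr l : Fin M ⊕ Fin q)
          (t.map Function.Embedding.inl))) : Finset (Finset (Fin M ⊕ Fin q))) :
            Set (Finset (Fin M ⊕ Fin q))) := by
    ext s
    simp only [Set.mem_ofPred_eq, Finset.coe_image, Set.mem_image, Finset.mem_coe,
      Finset.mem_powersetCard]
    constructor
    · rintro ⟨hs, hl⟩
      have hcl := hs.isClique
      have hse : insert (Sum.inr l : Fin M ⊕ Fin q)
          (s.toLeft.map Function.Embedding.inl) = s := by
        ext x
        rcases x with a | k
        · simp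
        · constructor
          · intro hx
            rcases Finset.mem_insert.1 hx with h | h
            · rw [h]; exact hl
            · obtain ⟨a, _, ha⟩ := Finset.mem_map.1 h
              simp at ha
          · intro hx
            by_cases hkl : k = l
            · rw [hkl]; exact Finset.mem_insert_self _ _
            · exfalso
              have h1 : (split N).Adj (Sum.inr k) (Sum.inr l) :=
                hcl (Finset.mem_coe.2 hx) (Finset.mem_coe.2 hl) (by simpa using hkl)
              exact h1
      refine ⟨s.toLeft, ⟨?_, ?_⟩, hse⟩
      · intro a ha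
        have ha' : (Sum.inl a : Fin M ⊕ Fin q) ∈ s := Finset.mem_toLeft.1 ha
        have h1 : (split N).Adj (Sum.inl a) (Sum.inr l) :=
          hcl (Finset.mem_coe.2 ha') (Finset.mem_coe.2 hl) (by simp)
        exact h1
      · have h2 := hs.card_eq
        rw [← hse, Finset.card_insert_of_notMem (hnot _), Finset.card_map] at h2
        omega
    · rintro ⟨t, ⟨ht, hc⟩, rfl⟩
      refine ⟨⟨?_, ?_⟩, Finset.mem_insert_self _ _⟩
      · intro x hx y hy hxy
        rw [Finset.mem_coe, Finset.mem_insert, Finset.mem_map] at hx hy
        rcases hx with rfl | ⟨a, ha, rfl⟩ <;> rcases hy with rfl | ⟨b, hb, rfl⟩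
        · exact absurd rfl hxy
        · exact ht hb
        · exact ht ha
        · intro hab
          exact hxy (by rw [hab])
      · rw [Finset.card_insert_of_notMem (hnot _), Finset.card_map, hc]
        omega
  rw [key, Set.ncard_coe_finset, Finset.card_image_of_injOn, Finset.card_powersetCard]
  intro t _ t' _ h
  have h' : insert (Sum.inr l : Fin M ⊕ Fin q) (t.map Function.Embedding.inl) =
      insert (Sum.inr l : Fin M ⊕ Fin q) (t'.map Function.Embedding.inl) := h
  ext a
  have h3 := Finset.ext_iff.1 h' (Sum.inl a)
  simpa using h3

end Pool.Agent.K4H49.IR
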