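import Pool.Agent.K4H49.IR.Spec

/-!
# The number of stars through a vertex (piece STAR of MP_5484c7_co)
-/

set_option autoImplicit false

open Finset

namespace Pool.Agent.K4H49.IR

/-- the star with centre `c` and leaves in `B` (those adjacent to `c`) -/
def SS {V : Type} (G : SimpleGraph V) (c : V) (B : Finset V) : G.Subgraph where
  verts := {v | v = c ∨ (v ∈ B ∧ G.Adj c v)}
  Adj u v := (u = c ∧ v ∈ B ∧ G.Adj c v) ∨ (v = c ∧ u ∈ B ∧ G.Adj c u)
  adj_sub := by
    rintro u v (⟨rfl, _, h⟩ | ⟨rfl, _, h⟩)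
    · exact h
    · exact h.symm
  edge_vert := by
    rintro u v (⟨rfl, _, h⟩ | ⟨rfl, h1, h⟩)
    · exact Or.inl rfl
    · exact Or.inr ⟨h1, h⟩
  symm := ⟨fun _ _ h => Or.symm h⟩

theorem SS_iso {V : Type} (G : SimpleGraph V) (c : V) (B : Finset V) (n : ℕ)
    (hB : ∀ v ∈ B, G.Adj c v) (hn : B.card = n) : Nonempty (star n ≃g (SS G c B).coe) := by
  classical
  let e : Fin n ≃ B := (B.equivFinOfCardEq hn).symm
  have hc : ∀ i, (e i : V) ≠ c := fun i h => (hB _ (e i).2).ne h.symm
  let f : Fin 1 ⊕ Fin n → (SS G c B).verts := fun s =>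
    match s with
    | .inl _ => ⟨c, Or.inl rfl⟩
    | .inr i => ⟨(e i : V), Or.inr ⟨(e i).2, hB _ (e i).2⟩⟩
  have hf : Function.Bijective f := by
    constructor
    · rintro (a | i) (b | j) h
      · rw [Subsingleton.elim a b]
      · exact absurd (congrArg Subtype.val h).symm (hc j)
      · exact absurd (congrArg Subtype.val h) (hc i)
      · have h0 := congrArg Subtype.val h
        have h1 : (e i : V) = e j := h0
        rw [e.injective (Subtype.ext h1)]
    · rintro ⟨v, rfl | ⟨hv, _⟩⟩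
      · exact ⟨.inl 0, rfl⟩
      · exact ⟨.inr (e.symm ⟨v, hv⟩), Subtype.ext (by simp [f])⟩
  refine ⟨⟨Equiv.ofBijective f hf, ?_⟩⟩
  rintro (a | i) (b | j)
  · simp only [Equiv.ofBijective_apply, SimpleGraph.Subgraph.coe_adj]
    constructor
    · rintro (⟨_, h, _⟩ | ⟨_, h, _⟩)
      · exact absurd rfl (hB c h).ne
      · exact absurd rfl (hB c h).ne
    · intro h
      simp [star, completeBipartiteGraph] at h
  · simp only [Equiv.ofBijective_apply, SimpleGraph.Subgraph.coe_adj]
    constructor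
    · intro _
      simp [star, completeBipartiteGraph]
    · intro _
      exact Or.inl ⟨rfl, (e j).2, hB _ (e j).2⟩
  · simp only [Equiv.ofBijective_apply, SimpleGraph.Subgraph.coe_adj]
    constructor
    · intro _
      simp [star, completeBipartiteGraph]
    · intro _
      exact Or.inr ⟨rfl, (e i).2, hB _ (e i).2⟩
  · simp only [Equiv.ofBijective_apply, SimpleGraph.Subgraph.coe_adj]
    constructor
    · rintro (⟨h, _, _⟩ | ⟨h, _, _⟩)
      · exact absurd h (hc i)
      · exact absurd h (hc j)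
    · intro h
      simp [star, completeBipartiteGraph] at h

theorem exists_SS {V : Type} [DecidableEq V] (G : SimpleGraph V) (n : ℕ) (H : G.Subgraph)
    (φ : star n ≃g H.coe) :
    ∃ c : V, ∃ B : Finset V, (∀ v ∈ B, G.Adj c v) ∧ B.card = n ∧ H = SS G c B := by
  classical
  let c : V := (φ (.inl 0)).1
  let B : Finset V := Finset.univ.image (fun i : Fin n => (φ (.inr i)).1)
  have hadj : ∀ i : Fin n, H.Adj c (φ (.inr i)).1 := by
    intro i
    have : H.coe.Adj (φ (.inl 0)) (φ (.inr i)) := by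
      rw [φ.map_adj_iff]
      simp [star, completeBipartiteGraph]
    exact this
  have hB : ∀ v ∈ B, G.Adj c v := by
    intro v hv
    obtain ⟨i, -, rfl⟩ := Finset.mem_image.1 hv
    exact H.adj_sub (hadj i)
  have hcard : B.card = n := by
    rw [Finset.card_image_of_injective, Finset.card_univ, Fintype.card_fin]
    intro i j h
    have h1 := φ.injective (Subtype.ext h)
    exact Sum.inr_injective h1
  refine ⟨c, B, hB, hcard, ?_⟩
  have hv : ∀ v, v ∈ H.verts ↔ v = c ∨ v ∈ B := by
    intro v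
    constructor
    · intro h
      obtain ⟨a, ha⟩ := φ.surjective ⟨v, h⟩
      rcases a with a | i
      · left
        have h1 : a = 0 := Subsingleton.elim _ _
        subst h1
        exact (congrArg Subtype.val ha).symm
      · right
        exact Finset.mem_image.2 ⟨i, Finset.mem_univ _, congrArg Subtype.val ha⟩
    · rintro (rfl | h)
      · exact (φ (.inl 0)).2
      · obtain ⟨i, -, rfl⟩ := Finset.mem_image.1 h
        exact (φ (.inr i)).2
  have hA : ∀ a b, H.Adj (φ a).1 (φ b).1 ↔ (star n).Adj a b := by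
    intro a b
    rw [← φ.map_adj_iff]
    exact Iff.rfl
  apply SimpleGraph.Subgraph.ext
  · ext v
    rw [hv]
    constructor
    · rintro (h | h)
      · exact Or.inl h
      · exact Or.inr ⟨h, hB v h⟩
    · rintro (h | ⟨h, _⟩)
      · exact Or.inl h
      · exact Or.inr h
  · ext u v
    constructor
    · intro h
      have hu := H.edge_vert h
      have hw := H.edge_vert h.symm
      obtain ⟨a, ha⟩ := φ.surjective ⟨u, hu⟩
      obtain ⟨b, hb⟩ := φ.surjective ⟨v, hw⟩
      have h1 : (φ a).1 = u := congrArg Subtype.val ha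
      have h2 : (φ b).1 = v := congrArg Subtype.val hb
      rw [← h1, ← h2, hA] at h
      rw [← h1, ← h2]
      rcases a with a | i <;> rcases b with b | j
      · simp [star, completeBipartiteGraph] at h
      · have h3 : a = 0 := Subsingleton.elim _ _
        subst h3
        refine Or.inl ⟨rfl, Finset.mem_image.2 ⟨j, Finset.mem_univ _, rfl⟩, H.adj_sub (hadj j)⟩
      · have h3 : b = 0 := Subsingleton.elim _ _
        subst h3
        refine Or.inr ⟨rfl, Finset.mem_image.2 ⟨i, Finset.mem_univ _, rfl⟩, H.adj_sub (hadj i)⟩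
      · simp [star, completeBipartiteGraph] at h
    · rintro (⟨rfl, h, _⟩ | ⟨rfl, h, _⟩)
      · obtain ⟨i, -, rfl⟩ := Finset.mem_image.1 h
        exact hadj i
      · obtain ⟨i, -, rfl⟩ := Finset.mem_image.1 h
        exact (hadj i).symm

theorem SS_le {V : Type} (G : SimpleGraph V) (c c' : V) (B B' : Finset V)
    (hB : ∀ v ∈ B, G.Adj c v) (hc : c = c') (h : SS G c B = SS G c' B') : B ⊆ B' := by
  subst hc
  intro a ha
  have h1 : (SS G c B).Adj c a := Or.inl ⟨rfl, ha, hB a ha⟩
  rw [h] at h1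
  rcases h1 with ⟨_, h2, _⟩ | ⟨h2, _, _⟩
  · exact h2
  · exact absurd h2.symm (hB a ha).ne

theorem SS_inj {V : Type} (G : SimpleGraph V) (c c' : V) (B B' : Finset V)
    (hB : ∀ v ∈ B, G.Adj c v) (hB' : ∀ v ∈ B', G.Adj c' v) (h2 : 2 ≤ B.card)
    (h : SS G c B = SS G c' B') : c = c' ∧ B = B' := by
  obtain ⟨a, ha, b, hb, hab⟩ := Finset.one_lt_card.1 h2
  have hcc : c = c' := by
    by_contra hne
    have h1 : (SS G c B).Adj c a := Or.inl ⟨rfl, ha, hB a ha⟩
    have h3 : (SS G c B).Adj c b := Or.inl ⟨rfl, hb, hB b hb⟩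
    rw [h] at h1 h3
    rcases h1 with ⟨h4, _⟩ | ⟨h4, _⟩
    · exact hne h4
    rcases h3 with ⟨h5, _⟩ | ⟨h5, _⟩
    · exact hne h5
    exact hab (h4.trans h5.symm)
  refine ⟨hcc, Finset.Subset.antisymm (SS_le G c c' B B' hB hcc h) (SS_le G c' c B' B hB' hcc.symm h.symm)⟩

theorem card_filter_mem {V : Type} [DecidableEq V] (s : Finset V) (x : V) (hx : x ∈ s) (n : ℕ)
    (hn : 1 ≤ n) :
    ((powersetCard n s).filter (fun B => x ∈ B)).card = (s.card - 1).choose (n - 1) := by
  have h1 := Finset.card_filter_add_card_filter_not (s := powersetCard n s) (fun B => x ∈ B)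
  have h2 : (powersetCard n s).filter (fun B => ¬ x ∈ B) = powersetCard n (s.erase x) := by
    ext B
    simp only [Finset.mem_filter, Finset.mem_powersetCard]
    constructor
    · rintro ⟨⟨h3, h4⟩, h5⟩
      exact ⟨fun a ha => Finset.mem_erase.2 ⟨fun h => h5 (h ▸ ha), h3 ha⟩, h4⟩
    · rintro ⟨h3, h4⟩
      exact ⟨⟨fun a ha => Finset.mem_of_mem_erase (h3 ha), h4⟩,
        fun h => (Finset.mem_erase.1 (h3 h)).1 rfl⟩
  rw [h2, Finset.card_powersetCard, Finset.card_powersetCard, Finset.card_erase_of_mem hx] at h1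
  obtain ⟨t, ht⟩ : ∃ t, s.card = t + 1 := ⟨s.card - 1, by
    have := Finset.card_pos.2 ⟨x, hx⟩
    omega⟩
  obtain ⟨p, rfl⟩ : ∃ p, n = p + 1 := ⟨n - 1, by omega⟩
  rw [ht] at h1 ⊢
  have h3 := Nat.choose_succ_succ' t p
  simp only [Nat.add_sub_cancel] at h1 ⊢
  omega

/-- [STAR] -/
theorem star_count : StStar := by
  classical
  intro V _ _ G _ n hn x
  let P : Finset (Σ _ : V, Finset V) := (Finset.univ : Finset V).sigma
    (fun c => (powersetCard n (G.neighborFinset c)).filter (fun B => x = c ∨ x ∈ B))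
  have hP : ∀ p : Σ _ : V, Finset V, p ∈ P ↔
      ((∀ v ∈ p.2, G.Adj p.1 v) ∧ p.2.card = n) ∧ (x = p.1 ∨ x ∈ p.2) := by
    intro p
    simp only [P, Finset.mem_sigma, Finset.mem_univ, true_and, Finset.mem_filter,
      Finset.mem_powersetCard]
    constructor
    · rintro ⟨⟨h1, h2⟩, h3⟩
      exact ⟨⟨fun v hv => (G.mem_neighborFinset _ _).1 (h1 hv), h2⟩, h3⟩
    · rintro ⟨⟨h1, h2⟩, h3⟩
      exact ⟨⟨fun v hv => (G.mem_neighborFinset _ _).2 (h1 v hv), h2⟩, h3⟩
  have hset : {H : G.Subgraph | x ∈ H.verts ∧ Nonempty (star n ≃g H.coe)} =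
      (fun p : Σ _ : V, Finset V => SS G p.1 p.2) '' (P : Set (Σ _ : V, Finset V)) := by
    ext H
    simp only [Set.mem_ofPred_eq, Set.mem_image, Finset.mem_coe]
    constructor
    · rintro ⟨hx, ⟨φ⟩⟩
      obtain ⟨c, B, h1, h2, rfl⟩ := exists_SS G n H φ
      refine ⟨⟨c, B⟩, (hP _).2 ⟨⟨h1, h2⟩, ?_⟩, rfl⟩
      rcases hx with h | ⟨h, _⟩
      · exact Or.inl h
      · exact Or.inr h
    · rintro ⟨⟨c, B⟩, hp, rfl⟩
      obtain ⟨⟨h1, h2⟩, h3⟩ := (hP _).1 hp
      refine ⟨?_, SS_iso G c B n h1 h2⟩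
      rcases h3 with h | h
      · exact Or.inl h
      · exact Or.inr ⟨h, h1 x h⟩
  have hinj : Set.InjOn (fun p : Σ _ : V, Finset V => SS G p.1 p.2)
      (P : Set (Σ _ : V, Finset V)) := by
    rintro ⟨c, B⟩ hp ⟨c', B'⟩ hp' h
    obtain ⟨⟨h1, h2⟩, -⟩ := (hP _).1 (Finset.mem_coe.1 hp)
    obtain ⟨⟨h1', h2'⟩, -⟩ := (hP _).1 (Finset.mem_coe.1 hp')
    obtain ⟨h3, h4⟩ := SS_inj G c c' B B' h1 h1' (by rw [h2]; exact hn) h
    subst h3
    subst h4
    rfl
  unfold fdeg
  rw [hset, hinj.ncard_image, Set.ncard_coe_finset, Finset.card_sigma,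
    ← Finset.add_sum_erase _ _ (Finset.mem_univ x)]
  unfold sn
  congr 1
  · rw [Finset.filter_true_of_mem (fun B _ => Or.inl rfl), Finset.card_powersetCard,
      G.card_neighborFinset_eq_degree]
  · have hsub : G.neighborFinset x ⊆ Finset.univ.erase x := by
      intro y hy
      rw [SimpleGraph.mem_neighborFinset] at hy
      exact Finset.mem_erase.2 ⟨hy.ne.symm, Finset.mem_univ _⟩
    rw [← Finset.sum_subset hsub]
    · refine Finset.sum_congr rfl fun y hy => ?_
      rw [SimpleGraph.mem_neighborFinset] at hy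
      have h1 : (powersetCard n (G.neighborFinset y)).filter (fun B => x = y ∨ x ∈ B) =
          (powersetCard n (G.neighborFinset y)).filter (fun B => x ∈ B) := by
        refine Finset.filter_congr fun B _ => ?_
        constructor
        · rintro (h | h)
          · exact absurd h hy.ne
          · exact h
        · exact Or.inr
      rw [h1, card_filter_mem _ x ((G.mem_neighborFinset _ _).2 hy.symm) n (by omega),
        G.card_neighborFinset_eq_degree]
    · intro y hy hy'
      rw [Finset.card_eq_zero, Finset.filter_eq_empty_iff]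
      intro B hB
      rw [Finset.mem_powersetCard] at hB
      rintro (h | h)
      · exact (Finset.mem_erase.1 hy).1 h.symm
      · have := (G.mem_neighborFinset _ _).1 (hB.1 h)
        exact hy' ((G.mem_neighborFinset _ _).2 this.symm)

end Pool.Agent.K4H49.IR
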