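import Pool.Agent.K4H49.IR.Spec

/-! Piece SUM for MP_5484c7_co. -/

set_option autoImplicit false

open Finset

namespace Pool.Agent.K4H49.IR

theorem sum_hockey (k t : ℕ) :
    ∑ l ∈ range t, (l + (k + 3) - 2).choose (k + 3 - 2) = (t + (k + 3) - 2).choose (k + 3 - 1) := by
  have e : ∀ s : ℕ, s + (k + 3) - 2 = s + k + 1 := fun s => by omega
  have e1 : k + 3 - 2 = k + 1 := by omega
  have e2 : k + 3 - 1 = k + 2 := by omega
  rw [e1, e2, e]
  induction t with
  | zero =>
    rw [Finset.range_zero, Finset.sum_empty, Nat.choose_eq_zero_of_lt (by omega)]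
  | succ t ih =>
    rw [Finset.sum_range_succ, ih, e]
    have e3 : t + 1 + k + 1 = (t + k + 1) + 1 := by omega
    rw [e3, Nat.choose_succ_succ (t + k + 1) (k + 1), add_comm]

theorem sum_Ico_hockey (k s t : ℕ) (h : s ≤ t) :
    (s + (k + 3) - 2).choose (k + 3 - 1) +
      ∑ l ∈ Ico s t, (l + (k + 3) - 2).choose (k + 3 - 2) =
      (t + (k + 3) - 2).choose (k + 3 - 1) := by
  rw [← sum_hockey, ← sum_hockey, Finset.sum_range_add_sum_Ico _ h]

theorem sum_Nf : StSum := by
  intro n M hn hM h
  obtain ⟨k, rfl⟩ : ∃ k, n = k + 3 := ⟨n - 3, by omega⟩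
  have hh := h.2
  have e1 : (∑ l : Fin (M + 2 - (k + 3)) with h ∈ Nf (k + 3) M l,
      (l.1 + (k + 3) - 2).choose (k + 3 - 2)) =
      ∑ l ∈ range (M + 2 - (k + 3)), if inN (k + 3) M h.1 (l + (k + 3) - 1) then
        (l + (k + 3) - 2).choose (k + 3 - 2) else 0 := by
    rw [Finset.sum_filter, ← Fin.sum_univ_eq_sum_range
      (fun l => if inN (k + 3) M h.1 (l + (k + 3) - 1) then
        (l + (k + 3) - 2).choose (k + 3 - 2) else 0)]
    apply Finset.sum_congr rfl
    intro l _
    simp only [Nf, Finset.mem_filter, Finset.mem_univ, true_and]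
  have e2 : (∑ l ∈ range (M + 2 - (k + 3)), if ¬ inN (k + 3) M h.1 (l + (k + 3) - 1) then
        (l + (k + 3) - 2).choose (k + 3 - 2) else 0) = defect (k + 3) M h.1 := by
    rw [← Finset.sum_filter]
    unfold defect
    by_cases c1 : h.1 + 3 ≤ k + 3
    · rw [if_pos c1]
      have f1 : (range (M + 2 - (k + 3))).filter
          (fun l => ¬ inN (k + 3) M h.1 (l + (k + 3) - 1)) = Ico 1 (h.1 + 2) := by
        ext l
        simp only [Finset.mem_filter, Finset.mem_range, Finset.mem_Ico, inN, if_pos c1]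
        omega
      rw [f1]
      have f2 := sum_Ico_hockey k 1 (h.1 + 2) (by omega)
      have f3 : (1 + (k + 3) - 2).choose (k + 3 - 1) = 1 := by
        have : 1 + (k + 3) - 2 = k + 3 - 1 := by omega
        rw [this, Nat.choose_self]
      have f4 : h.1 + 2 + (k + 3) - 2 = k + 3 + h.1 := by omega
      rw [f3, f4] at f2
      omega
    · rw [if_neg c1]
      by_cases c2 : M + 2 ≤ h.1 + (k + 3)
      · rw [if_pos c2]
        have f1 : (range (M + 2 - (k + 3))).filter
            (fun l => ¬ inN (k + 3) M h.1 (l + (k + 3) - 1)) =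
            insert 0 (Ico (M - h.1 + 1) (h.1 + 2 - (k + 3))) := by
          ext l
          simp only [Finset.mem_filter, Finset.mem_range, Finset.mem_insert, Finset.mem_Ico, inN,
            if_neg c1, if_pos c2]
          omega
        rw [f1, Finset.sum_insert (by simp)]
        have f2 := sum_Ico_hockey k (M - h.1 + 1) (h.1 + 2 - (k + 3)) (by omega)
        have f3 : (0 + (k + 3) - 2).choose (k + 3 - 2) = 1 := by
          rw [zero_add, Nat.choose_self]
        have f4 : h.1 + 2 - (k + 3) + (k + 3) - 2 = h.1 := by omega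
        have f5 : M - h.1 + 1 + (k + 3) - 2 = k + 3 + (M - 1 - h.1) := by omega
        rw [f4, f5] at f2
        rw [f3]
        omega
      · rw [if_neg c2]
        have f1 : (range (M + 2 - (k + 3))).filter
            (fun l => ¬ inN (k + 3) M h.1 (l + (k + 3) - 1)) = range (h.1 + 2 - (k + 3)) := by
          ext l
          simp only [Finset.mem_filter, Finset.mem_range, inN, if_neg c1, if_neg c2]
          omega
        rw [f1, sum_hockey]
        have f4 : h.1 + 2 - (k + 3) + (k + 3) - 2 = h.1 := by omega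
        rw [f4]
  rw [e1, ← e2, ← Finset.sum_add_distrib]
  have e3 : (∑ l ∈ range (M + 2 - (k + 3)),
      ((if inN (k + 3) M h.1 (l + (k + 3) - 1) then (l + (k + 3) - 2).choose (k + 3 - 2) else 0) +
      if ¬ inN (k + 3) M h.1 (l + (k + 3) - 1) then
        (l + (k + 3) - 2).choose (k + 3 - 2) else 0)) =
      ∑ l ∈ range (M + 2 - (k + 3)), (l + (k + 3) - 2).choose (k + 3 - 2) := by
    apply Finset.sum_congr rfl
    intro l _
    by_cases c : inN (k + 3) M h.1 (l + (k + 3) - 1)
    · rw [if_pos c, if_neg (not_not.2 c), add_zero]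
    · rw [if_neg c, if_pos c, zero_add]
  rw [e3, sum_hockey]
  have f4 : M + 2 - (k + 3) + (k + 3) - 2 = M := by omega
  rw [f4]

end Pool.Agent.K4H49.IR
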