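import Pool.Agent.K4H49.IR.Spec
import Pool.Agent.K4H49.IR.Star
import Pool.Agent.K4H28.IR.Mono
import Pool.Agent.K4H88.IRClq
import Pool.Agent.K4H49.IR.Spl1
import Pool.Agent.K4H54.IR.Spl2
import Pool.Agent.K4H49.IR.Card
import Pool.Agent.K4H49.IR.Sum
import Pool.Agent.K4H49.IR.Inj

set_option autoImplicit false

namespace Pool.Agent.K4H49.IR

theorem mono : StMono := Pool.Agent.K4H28.IR.mono

end Pool.Agent.K4H49.IR
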