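import Pool.Agent.K4H49.IR.Spec

set_option autoImplicit false

open Finset

namespace Pool.Agent.K4H49.IR

theorem star_main (hS : StStar) (hM : StMono) (n m : ℕ) (hn : 2 ≤ n) (hm : n + 1 ≤ m) :
    Function.Injective (fdeg (star n) (A m)) := by
  have h : fdeg (star n) (A m) = sn (A m) n := by
    funext x
    exact hS (A m) n hn x
  rw [h]
  exact (hM n m hn hm).injective

theorem clique_main (hC : StClq) (h1 : StSpl1) (h2 : StSpl2) (hcard : StCard) (hsum : StSum)
    (hinj : StInj) (n M : ℕ) (hn : 3 ≤ n) (hM : 3 * n ≤ M) :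
    Function.Injective (fdeg (⊤ : SimpleGraph (Fin n)) (split (Nf n M))) := by
  have hlow : ∀ l : Fin (M + 2 - n), fdeg (⊤ : SimpleGraph (Fin n)) (split (Nf n M)) (Sum.inr l) =
      (l.1 + n - 1).choose (n - 1) := by
    intro l
    rw [hC, h1 (Nf n M) n (by omega) l, hcard n M hn hM l]
  have hhigh : ∀ h : Fin M, fdeg (⊤ : SimpleGraph (Fin n)) (split (Nf n M)) (Sum.inl h) +
      defect n M h.1 = (M - 1).choose (n - 1) + M.choose (n - 1) := by
    intro h
    rw [hC, h2 (Nf n M) n (by omega) h, ← hsum n M hn hM h, add_assoc]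
    congr 2
    refine Finset.sum_congr rfl fun l _ => ?_
    rw [hcard n M hn hM l]
    congr 1
  obtain ⟨hlt, hin⟩ := hinj n M hn hM
  have hlow_le : ∀ l : Fin (M + 2 - n),
      fdeg (⊤ : SimpleGraph (Fin n)) (split (Nf n M)) (Sum.inr l) ≤ M.choose (n - 1) := by
    intro l
    rw [hlow]
    exact Nat.choose_le_choose _ (by have := l.2; omega)
  have hhigh_gt : ∀ h : Fin M, M.choose (n - 1) <
      fdeg (⊤ : SimpleGraph (Fin n)) (split (Nf n M)) (Sum.inl h) := by
    intro h
    have e1 := hhigh h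
    have e2 := hlt h.1 h.2
    omega
  rintro (h | l) (h' | l') e
  · have e1 := hhigh h
    have e2 := hhigh h'
    rw [← e] at e2
    have e3 : defect n M h.1 = defect n M h'.1 := by omega
    rw [Fin.ext (hin h.1 h.2 h'.1 h'.2 e3)]
  · exact absurd e (by have := hhigh_gt h; have := hlow_le l'; omega)
  · exact absurd e (by have := hhigh_gt h'; have := hlow_le l; omega)
  · rw [hlow, hlow] at e
    have key : StrictMonoOn (fun d : ℕ => d.choose (n - 1)) (Set.Ici (n - 1)) := by
      intro a ha b hb hab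
      have ha' : n - 1 ≤ a := ha
      show a.choose (n - 1) < b.choose (n - 1)
      have h1 : a.choose (n - 1) < (a + 1).choose (n - 1) := by
        obtain ⟨k, hk⟩ : ∃ k, n - 1 = k + 1 := ⟨n - 2, by omega⟩
        rw [hk, Nat.choose_succ_succ']
        have : 0 < a.choose k := Nat.choose_pos (by omega)
        omega
      exact h1.trans_le (Nat.choose_le_choose _ hab)
    have e4 := key.injOn (show l.1 + n - 1 ∈ Set.Ici (n - 1) from by
      show n - 1 ≤ l.1 + n - 1
      omega) (show l'.1 + n - 1 ∈ Set.Ici (n - 1) from by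
      show n - 1 ≤ l'.1 + n - 1
      omega) e
    have e5 : l.1 = l'.1 := by omega
    rw [Fin.ext e5]

end Pool.Agent.K4H49.IR
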