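import Pool.Agent.K4H49.IR.Spec

open Finset

namespace Pool.Agent.K4H49.IR

theorem nbr_sum (m : ℕ) (hm : 1 ≤ m) (f : ℕ → ℕ) (i : Fin (2 * m + 1)) :
    ∑ y ∈ (A m).neighborFinset i, f y.1 + (if m + 1 ≤ i.1 then f i.1 else 0) =
      ∑ j ∈ range i.1, f (2 * m - j) + (if i.1 = m + 1 then f 0 else 0) +
        (if i.1 = 0 then f (m + 1) else 0) := by
  have hi := i.2
  have e1 : ∑ y ∈ (A m).neighborFinset i, f y.1 =
      ∑ j ∈ range (2 * m + 1), (if (i.1 ≠ j ∧ (2 * m < i.1 + j ∨ (i.1 = 0 ∧ j = m + 1) ∨
        (j = 0 ∧ i.1 = m + 1))) then f j else 0) := by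
    rw [← Fin.sum_univ_eq_sum_range (fun j => if (i.1 ≠ j ∧ (2 * m < i.1 + j ∨ (i.1 = 0 ∧ j = m + 1) ∨
        (j = 0 ∧ i.1 = m + 1))) then f j else 0) (2 * m + 1)]
    rw [← Finset.sum_filter]
    apply Finset.sum_congr
    · ext y
      rw [SimpleGraph.mem_neighborFinset, mem_filter]
      simp only [mem_univ, true_and]
      constructor
      · intro h
        exact ⟨fun h' => h.1 (Fin.ext h'), h.2⟩
      · intro h
        exact ⟨fun h' => h.1 (congrArg Fin.val h'), h.2⟩
    · intro _ _; rfl
  have e2 : (if m + 1 ≤ i.1 then f i.1 else 0) =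
      ∑ j ∈ range (2 * m + 1), (if j = i.1 then (if m + 1 ≤ i.1 then f j else 0) else 0) := by
    rw [Finset.sum_ite_eq' (range (2 * m + 1)) i.1 (fun j => if m + 1 ≤ i.1 then f j else 0)]
    rw [if_pos (mem_range.2 hi)]
  have e3 : (if i.1 = m + 1 then f 0 else 0) =
      ∑ j ∈ range (2 * m + 1), (if j = 0 then (if i.1 = m + 1 then f j else 0) else 0) := by
    rw [Finset.sum_ite_eq' (range (2 * m + 1)) 0 (fun j => if i.1 = m + 1 then f j else 0)]
    rw [if_pos (mem_range.2 (by omega))]
  have e4 : (if i.1 = 0 then f (m + 1) else 0) =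
      ∑ j ∈ range (2 * m + 1), (if j = m + 1 then (if i.1 = 0 then f j else 0) else 0) := by
    rw [Finset.sum_ite_eq' (range (2 * m + 1)) (m + 1) (fun j => if i.1 = 0 then f j else 0)]
    rw [if_pos (mem_range.2 (by omega))]
  have e5 : ∑ j ∈ range i.1, f (2 * m - j) =
      ∑ j ∈ range (2 * m + 1), (if 2 * m < i.1 + j then f j else 0) := by
    rw [← Finset.sum_range_reflect (fun j => if 2 * m < i.1 + j then f j else 0) (2 * m + 1)]
    rw [← Finset.sum_filter_add_sum_filter_not (range (2 * m + 1)) (fun j => j < i.1)]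
    have z : ∑ j ∈ (range (2 * m + 1)).filter (fun j => ¬ j < i.1),
        (if 2 * m < i.1 + (2 * m + 1 - 1 - j) then f (2 * m + 1 - 1 - j) else 0) = 0 := by
      apply Finset.sum_eq_zero
      intro j hj
      rw [mem_filter, mem_range] at hj
      rw [if_neg (by omega)]
    rw [z, add_zero]
    have hf : (range (2 * m + 1)).filter (fun j => j < i.1) = range i.1 := by
      ext j; rw [mem_filter, mem_range, mem_range]; omega
    rw [hf]
    apply Finset.sum_congr rfl
    intro j hj
    rw [mem_range] at hj
    rw [if_pos (by omega)]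
    rfl
  rw [e1, e2, e3, e4, e5, ← Finset.sum_add_distrib, ← Finset.sum_add_distrib, ← Finset.sum_add_distrib]
  apply Finset.sum_congr rfl
  intro j hj
  rw [mem_range] at hj
  split_ifs <;> omega

/-- the degrees -/
def dd (m i : ℕ) : ℕ := if i = 0 then 1 else if i ≤ m + 1 then i else i - 1

theorem degA (m : ℕ) (hm : 1 ≤ m) (i : Fin (2 * m + 1)) : (A m).degree i = dd m i.1 := by
  have h := nbr_sum m hm (fun _ => 1) i
  rw [Finset.sum_const, Finset.sum_const, card_range, SimpleGraph.card_neighborFinset_eq_degree] at h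
  unfold dd
  simp only [smul_eq_mul, mul_one] at h
  split_ifs at h ⊢ <;> omega

theorem mono : StMono := by
  intro n m hn hm
  have hm1 : 1 ≤ m := by omega
  set w : ℕ → ℕ := fun y => (dd m y - 1).choose (n - 1) with hw
  have hS : ∀ (i : Fin (2 * m + 1)) (t : ℕ), i.1 = t → sn (A m) n i + (if m + 1 ≤ t then w t else 0) =
      (dd m t).choose n + ∑ j ∈ range t, w (2 * m - j) + (if t = m + 1 then w 0 else 0) +
        (if t = 0 then w (m + 1) else 0) := by
    intro i t ht
    subst ht
    have h := nbr_sum m hm1 w i
    have e : sn (A m) n i = (dd m i.1).choose n + ∑ y ∈ (A m).neighborFinset i, w y.1 := by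
      unfold sn
      rw [degA m hm1]
      congr 1
      apply Finset.sum_congr rfl
      intro y _
      rw [degA m hm1]
    rw [e]
    omega
  have w0 : w 0 = 0 := by
    simp only [hw, dd, if_true]
    exact Nat.choose_eq_zero_of_lt (by omega)
  have wle : ∀ y, 1 ≤ y → y ≤ m + 1 → w y = (y - 1).choose (n - 1) := by
    intro y h1 h2
    simp only [hw, dd]
    rw [if_neg (by omega), if_pos h2]
  have wgt : ∀ y, m + 2 ≤ y → w y = (y - 2).choose (n - 1) := by
    intro y h1
    simp only [hw, dd]
    rw [if_neg (by omega), if_neg (by omega)]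
    rfl
  have pas : ∀ a, 1 ≤ a → a.choose n = (a - 1).choose (n - 1) + (a - 1).choose n := by
    intro a ha
    obtain ⟨b, rfl⟩ : ∃ b, a = b + 1 := ⟨a - 1, by omega⟩
    obtain ⟨c, rfl⟩ : ∃ c, n = c + 1 := ⟨n - 1, by omega⟩
    simp only [Nat.add_sub_cancel]
    exact Nat.choose_succ_succ b c
  rw [Fin.strictMono_iff_lt_succ]
  intro i
  obtain ⟨t, hti⟩ : ∃ t, i.1 = t := ⟨_, rfl⟩
  have hi : t < 2 * m := hti ▸ i.2
  have h1 := hS i.castSucc t (by simpa using hti)
  have h2 := hS i.succ (t + 1) (by simpa using hti)
  rw [Finset.sum_range_succ] at h2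
  rw [w0] at h1 h2
  rcases Nat.lt_or_ge t 1 with c0 | c0
  · -- i = 0
    have hi0 : t = 0 := by omega
    rw [hi0] at h1 h2
    rw [if_neg (by omega), if_neg (by omega), if_pos rfl, wle (m + 1) (by omega) le_rfl] at h1
    rw [if_neg (by omega), if_neg (by omega), if_neg (by omega), wgt (2 * m - 0) (by omega)] at h2
    have d0 : dd m 0 = 1 := rfl
    have d1 : dd m (0 + 1) = 1 := by simp [dd]
    rw [d0, Nat.choose_eq_zero_of_lt (by omega : 1 < n)] at h1
    rw [d1, Nat.choose_eq_zero_of_lt (by omega : 1 < n)] at h2
    simp only [range_zero, sum_empty, Nat.add_sub_cancel, Nat.sub_zero] at h1 h2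
    have k1 : m.choose (n - 1) < (m + 1).choose (n - 1) := by
      obtain ⟨c, hc⟩ : ∃ c, n - 1 = c + 1 := ⟨n - 2, by omega⟩
      rw [hc]
      have h3 := Nat.choose_succ_succ m c
      simp only [Nat.succ_eq_add_one] at h3
      have : 0 < m.choose c := Nat.choose_pos (by omega)
      omega
    have k2 : (m + 1).choose (n - 1) ≤ (2 * m - 2).choose (n - 1) :=
      Nat.choose_le_choose _ (by omega)
    omega
  · rcases Nat.lt_or_ge t m with c1 | c1
    · -- 1 ≤ i < m
      rw [if_neg (by omega), if_neg (by omega), if_neg (by omega)] at h1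
      rw [if_neg (by omega), if_neg (by omega), if_neg (by omega)] at h2
      have d0 : dd m t = t := by unfold dd; rw [if_neg (by omega), if_pos (by omega)]
      have d1 : dd m (t + 1) = t + 1 := by unfold dd; rw [if_neg (by omega), if_pos (by omega)]
      rw [d0] at h1
      rw [d1] at h2
      have k1 : t.choose n ≤ (t + 1).choose n := Nat.choose_le_choose _ (by omega)
      have k2 : 0 < w (2 * m - t) := by
        rcases Nat.lt_or_ge (2 * m - t) (m + 2) with c | c
        · rw [wle _ (by omega) (by omega)]
          exact Nat.choose_pos (by omega)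
        · rw [wgt _ c]
          exact Nat.choose_pos (by omega)
      omega
    · rcases Nat.lt_or_ge t (m + 1) with c2 | c2
      · -- i = m
        have him : t = m := by omega
        rw [him] at h1 h2
        rw [if_neg (by omega), if_neg (by omega), if_neg (by omega)] at h1
        rw [if_pos le_rfl, if_pos rfl, if_neg (by omega)] at h2
        have d0 : dd m m = m := by unfold dd; rw [if_neg (by omega), if_pos (by omega)]
        have d1 : dd m (m + 1) = m + 1 := by unfold dd; rw [if_neg (by omega), if_pos (by omega)]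
        rw [d0] at h1
        rw [d1] at h2
        have e0 : 2 * m - m = m := by omega
        rw [e0, wle m hm1 (by omega), wle (m + 1) (by omega) le_rfl, pas (m + 1) (by omega)] at h2
        simp only [Nat.add_sub_cancel] at h2
        have k1 : 0 < (m - 1).choose (n - 1) := Nat.choose_pos (by omega)
        omega
      · rcases Nat.lt_or_ge t (m + 2) with c3 | c3
        · -- i = m + 1
          have him : t = m + 1 := by omega
          rw [him] at h1 h2
          rw [if_pos le_rfl, if_pos rfl, if_neg (by omega)] at h1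
          rw [if_pos (by omega), if_neg (by omega), if_neg (by omega)] at h2
          have d0 : dd m (m + 1) = m + 1 := by unfold dd; rw [if_neg (by omega), if_pos (by omega)]
          have d1 : dd m (m + 1 + 1) = m + 1 := by
            unfold dd; rw [if_neg (by omega), if_neg (by omega)]; omega
          rw [d0, wle (m + 1) (by omega) le_rfl] at h1
          have e0 : 2 * m - (m + 1) = m - 1 := by omega
          rw [d1, wgt (m + 1 + 1) (by omega), e0, wle (m - 1) (by omega) (by omega)] at h2
          have e1 : m + 1 + 1 - 2 = m := by omega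
          have e2 : m - 1 - 1 = m - 2 := by omega
          rw [e1, e2] at h2
          simp only [Nat.add_sub_cancel] at h1
          have k1 : 0 < (m - 2).choose (n - 1) := Nat.choose_pos (by omega)
          omega
        · -- m + 2 ≤ i
          rw [if_pos (by omega), if_neg (by omega), if_neg (by omega)] at h1
          rw [if_pos (by omega), if_neg (by omega), if_neg (by omega)] at h2
          have d0 : dd m t = t - 1 := by unfold dd; rw [if_neg (by omega), if_neg (by omega)]
          have d1 : dd m (t + 1) = t := by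
            unfold dd; rw [if_neg (by omega), if_neg (by omega)]; omega
          rw [d0, wgt t c3] at h1
          have e0 : t + 1 - 2 = t - 1 := by omega
          rw [d1, wgt (t + 1) (by omega), e0, pas t (by omega)] at h2
          have k1 : 0 < (t - 2).choose (n - 1) := Nat.choose_pos (by omega)
          omega

end Pool.Agent.K4H49.IR
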